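import Mathlib
import Pool.Agent.H704Z.Hed.Main

set_option autoImplicit false

namespace Pool.Agent.Results.MP_19f4d1_co.ACyclicFour

open Pool.Agent.H704Z.Hed

/-- For the cyclic group of order four there are finite free complexes of index two whose product
has index one. -/
theorem result : ∃ K₁ K₂ : GComplex (Multiplicative (ZMod 4)), K₁.IsFree ∧ K₂.IsFree ∧
    IsIndex (Multiplicative (ZMod 4)) K₁.Real 2 ∧ IsIndex (Multiplicative (ZMod 4)) K₂.Real 2 ∧
    IsIndex (Multiplicative (ZMod 4)) (K₁.Real × K₂.Real) 1 :=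
  ⟨K1, K2, K1_free, K2_free, index_two K1_two K1_not, index_two K2_two K2_not, prod_index⟩

end Pool.Agent.Results.MP_19f4d1_co.ACyclicFour
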